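import Pool.Agent.Helper74.DI.St
import Pool.Agent.Helper74.WB.St

/-!
# Project DI, module Q2B: two labels suffice, second direction
-/

set_option autoImplicit false

namespace Pool.Agent.Helper36.DI

open Pool.Agent.Helper74 Pool.Agent.Helper74.DI
open Pool.Agent.Helper74.NM (NC)
open Pool.Agent.Helper74.WB (OP QW rl enc iv ap rd Red op_append)

theorem ht2_append (u v : List ((Bool × Bool) × Bool)) : ht2 (u ++ v) = ht2 u + ht2 v := by
  induction u with
  | nil => simp [ht2]
  | cons a u ih =>
    obtain ⟨⟨l, s⟩, o⟩ := a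
    cases l
    · simp only [List.cons_append, ht2]
      exact ih
    · simp only [List.cons_append, ht2]
      rw [ih]
      ring

theorem t2_append (η : ℤ) (u v : List ((Bool × Bool) × Bool)) :
    t2 η (u ++ v) = t2 η u ++ t2 (η + ht2 u) v := by
  induction u generalizing η with
  | nil => simp [t2, ht2]
  | cons a u ih =>
    obtain ⟨⟨l, s⟩, o⟩ := a
    cases l
    · simp only [List.cons_append, t2, ht2]
      rw [ih]
    · simp only [List.cons_append, t2, ht2]
      rw [ih]
      congr 2
      cases s
      · simp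
        ring
      · simp
        ring

theorem q2b_claim (z : List ((Bool × Bool) × Bool)) (h : OP z) (hq : QW z) :
    ht2 z ≤ 0 ∧ (ht2 z = 0 → ∀ η, OP (t2 η z)) := by
  induction h with
  | nil => exact ⟨le_rfl, fun _ η => OP.nil⟩
  | skip x z _ ih =>
    obtain ⟨h1, h2⟩ := ih fun a ha => hq a (List.mem_cons_of_mem _ ha)
    have h3 : true = x.2 := hq (x, true) (by simp)
    obtain ⟨l, s⟩ := x
    have hs : s = true := h3.symm
    subst hs
    cases l
    · simp only [ht2, t2]
      exact ⟨h1, fun h0 η => OP.skip _ _ (h2 h0 η)⟩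
    · simp only [ht2, t2]
      refine ⟨by simp; linarith, fun h0 => ?_⟩
      simp at h0
      omega
  | wrap x o o' u v _ _ ihu ihv =>
    obtain ⟨u1, u2⟩ := ihu fun a ha => hq a (by simp [ha])
    obtain ⟨v1, v2⟩ := ihv fun a ha => hq a (by simp [ha])
    obtain ⟨l, s⟩ := x
    cases l
    · simp only [ht2, t2, iv, ht2_append]
      refine ⟨by omega, fun h0 η => ?_⟩
      have hu0 : ht2 u = 0 := by omega
      have hv0 : ht2 v = 0 := by omega
      rw [t2_append, hu0, add_zero]
      simp only [t2]
      exact OP.wrap (η, s) o o' _ _ (u2 hu0 η) (v2 hv0 η)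
    · simp only [ht2, t2, iv, ht2_append]
      have hs : (if s = true then (-1 : ℤ) else 1) + (if (!s) = true then (-1 : ℤ) else 1) = 0 := by
        cases s <;> simp
      refine ⟨by omega, fun h0 η => ?_⟩
      have hu0 : ht2 u = 0 := by omega
      have hv0 : ht2 v = 0 := by omega
      rw [t2_append, hu0, add_zero]
      simp only [t2]
      refine op_append _ _ (u2 hu0 _) ?_
      exact v2 hv0 _

theorem rep_up (i : ℕ) (η : ℤ) : ht2 (List.replicate i ((true, false), false)) = i ∧
    t2 η (List.replicate i ((true, false), false)) = [] := by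
  induction i generalizing η with
  | zero => simp [ht2, t2]
  | succ i ih =>
    simp only [List.replicate_succ, ht2, t2]
    refine ⟨?_, (ih _).2⟩
    rw [(ih η).1]
    push_cast
    ring

theorem rep_down (i : ℕ) (η : ℤ) : ht2 (List.replicate i ((true, true), true)) = -(i : ℤ) ∧
    t2 η (List.replicate i ((true, true), true)) = [] := by
  induction i generalizing η with
  | zero => simp [ht2, t2]
  | succ i ih =>
    simp only [List.replicate_succ, ht2, t2]
    refine ⟨?_, (ih _).2⟩
    rw [(ih η).1]
    push_cast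
    simp

theorem q2_ht (a : (ℕ × Bool) × Bool) : ht2 (q2 a) = 0 := by
  unfold q2
  rw [ht2_append, (rep_up _ 0).1]
  simp only [ht2]
  rw [(rep_down _ 0).1]
  ring

theorem q2_t (η : ℤ) (a : (ℕ × Bool) × Bool) : t2 η (q2 a) = [((η + a.1.1, a.1.2), a.2)] := by
  unfold q2
  rw [t2_append, (rep_up _ η).1, (rep_up _ η).2]
  simp only [t2]
  rw [(rep_down _ _).2]
  rfl

theorem flat_ht (w : List ((ℕ × Bool) × Bool)) : ht2 (w.flatMap q2) = 0 := by
  induction w with
  | nil => rfl
  | cons a w ih => rw [List.flatMap_cons, ht2_append, q2_ht, ih, add_zero]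

theorem flat_t (w : List ((ℕ × Bool) × Bool)) :
    t2 0 (w.flatMap q2) = w.map (rl fun n : ℕ => (n : ℤ)) := by
  induction w with
  | nil => rfl
  | cons a w ih =>
    rw [List.flatMap_cons, t2_append, q2_ht, q2_t, add_zero, ih, List.map_cons, zero_add]
    rfl

theorem flat_qw (w : List ((ℕ × Bool) × Bool)) (h : QW w) : QW (w.flatMap q2) := by
  intro b hb
  obtain ⟨a, ha, hb⟩ := List.mem_flatMap.1 hb
  have h1 := h a ha
  unfold q2 at hb
  rcases List.mem_append.1 hb with h2 | h2
  · rw [(List.mem_replicate.1 h2).2]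
  · rcases List.mem_cons.1 h2 with h3 | h3
    · rw [h3]
      exact h1
    · rw [(List.mem_replicate.1 h3).2]

theorem hQ2B (hREL : WB.StREL) : StQ2B := by
  intro w hq h
  have h1 := (q2b_claim _ h (flat_qw w hq)).2 (flat_ht w) 0
  rw [flat_t] at h1
  exact (hREL ℕ ℤ (fun n => (n : ℤ)) Nat.cast_injective w).2 h1

end Pool.Agent.Helper36.DI
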